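import Pool.Agent.ASE.Stmts6
import Pool.Agent.Helper15_ASO.HL12

/-!
# Squad ASE, row ETG (helper44): invariance under the powers prime to `ℓ`
-/

open scoped BigOperators

noncomputable section

namespace Pool.Agent.PP.SE.H44

open Pool.Agent.Helper51_AWC Pool.Agent.Helper79_WRA Pool.Agent.PP Pool.Agent.PP.KF
open Pool.Agent.PP.K9 Pool.Agent.PP.K9.H97 Pool.Agent.PP.H75 Pool.Agent.PP.T3 Pool.Agent.PP.SO
open Pool.Agent.PP.SD

attribute [local instance] Ideal.Quotient.field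

/-- the sum of the induced label against a class function -/
theorem etl_sum {V₀ G : Type} [CommGroup V₀] [Group G] [Finite G]
    {M : Ideal (integralClosure ℤ ℂ)} [M.IsMaximal] (B : Bk (FF M) V₀ G) (D : Rd V₀ G)
    (a : Subgroup V₀) (ha : a ≠ ⊥) (κ : V₀) (χ : G → ℂ)
    (hχ : ∀ g h : G, χ (h * g * h⁻¹) = χ g) :
    ∑ᶠ g : G, etl B D a κ ⊥ g * χ g =
      (Nat.card (B.C a) : ℂ)⁻¹ * (Nat.card G * ∑ᶠ s : G, D.et a s * χ (B.i κ * s)) := by
  classical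
  letI := Fintype.ofFinite G
  have h1 : ∀ g : G, etl B D a κ ⊥ g = (Nat.card (B.C a) : ℂ)⁻¹ *
      ∑ z : G, D.et a ((B.i κ)⁻¹ * (z⁻¹ * g * z)) := by
    intro g
    unfold etl
    rw [if_neg ha.symm, if_pos rfl, finsum_eq_sum_of_fintype]
    rfl
  rw [finsum_eq_sum_of_fintype, finsum_eq_sum_of_fintype]
  rw [Finset.sum_congr rfl fun g _ => by rw [h1 g, mul_assoc], ← Finset.mul_sum]
  congr 1
  rw [Finset.sum_congr rfl fun g _ => Finset.sum_mul _ _ _, Finset.sum_comm]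
  have h2 : ∀ z : G, ∑ g : G, D.et a ((B.i κ)⁻¹ * (z⁻¹ * g * z)) * χ g =
      ∑ s : G, D.et a s * χ (B.i κ * s) := by
    intro z
    refine Fintype.sum_equiv
      (((MulAut.conj z⁻¹).toEquiv : G ≃ G).trans (Equiv.mulLeft (B.i κ)⁻¹)) _ _ fun g => ?_
    have e1 : (((MulAut.conj z⁻¹).toEquiv : G ≃ G).trans (Equiv.mulLeft (B.i κ)⁻¹)) g =
        (B.i κ)⁻¹ * (z⁻¹ * g * z) := by
      show (B.i κ)⁻¹ * (z⁻¹ * g * z⁻¹⁻¹) = _
      rw [inv_inv]
    rw [e1, mul_inv_cancel_left]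
    congr 1
    have e2 := hχ g z⁻¹
    rw [inv_inv] at e2
    exact e2.symm
  rw [Finset.sum_congr rfl fun z _ => h2 z, Finset.sum_const, Finset.card_univ, nsmul_eq_mul,
    Nat.card_eq_fintype_card]

theorem etg (wbo : WboStmt) (hlnk : HLnkStmt) (prm : T3.PrmStmt) (rtc : T3.RtcStmt) :
    EtgStmt := by
  intro ℓ hℓ M hMm hM hℓ2 V₀ G _ _ _ _ E₀ hF B hB D hD a ha κ hκ j hj
  classical
  have hv : ∀ v : V₀, v ^ ℓ = 1 := hF.ex
  have hS : (IrrE M B.e).Finite := by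
    have := Fintype.ofFinite G
    exact irr_finite'.subset (fun θ h => h.1)
  have hi : ∀ c : V₀, (B.i c) ^ ℓ = 1 := by
    intro c
    rw [← map_pow, hv, map_one]
  have hval : ∀ (c : V₀) (j : ℕ), ¬ ℓ ∣ j → ∀ χ ∈ Irr G,
      cv (fc B ⊥ (c ^ j)) χ = Nat.card G *
        gv M (Cu (B.i c)) (B.i c ^ j) (B.b (Subgroup.zpowers c)) χ /
          (Nat.card (B.C (Subgroup.zpowers c)) * χ 1) := by
    intro c j hj χ hχ
    have h1 := (hlnk ℓ M hM V₀ E₀ G B hB (c ^ j)).2.2 χ hχ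
    have h2 := (hlnk ℓ M hM V₀ E₀ G B hB (c ^ j)).1
    have h3 := (hlnk ℓ M hM V₀ E₀ G B hB c).1
    rw [SO.H15.zp_eq hv c hj] at h1 h2
    rw [h1, h2, h3, map_pow]
  obtain ⟨N, hN⟩ := prm ℓ hℓ2 G
  obtain ⟨k, hk⟩ := hN.gen j hj
  obtain ⟨hrI, hrE⟩ := rtc ℓ M hM G N hN B.e hB.ld.blk.1
  have hcv : ∀ x : V₀, ∀ χ ∈ Irr G,
      cv (fc B ⊥ (x ^ j)) χ = cv (fc B ⊥ x) (fun g => χ (g ^ N ^ k)) := by
    intro x χ hχ
    have hχ' : (fun g => χ (g ^ N ^ k)) ∈ Irr G := SO.H15.pm_mem (Irr G) hrI k χ hχ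
    have h1 := hval x 1 (fun h => hℓ.out.one_lt.ne' (Nat.dvd_one.1 h)) _ hχ'
    rw [pow_one, pow_one] at h1
    rw [hval x j hj χ hχ, h1]
    have hlc := (hlnk ℓ M hM V₀ E₀ G B hB x).2.1
    have e1 : χ (1 ^ N ^ k) = χ 1 := by rw [one_pow]
    rw [e1]
    congr 2
    unfold gv gbv
    refine finsum_congr fun t => ?_
    by_cases ht : Reg ℓ (t : Cu (B.i x))
    · congr 1
      have ht2 : Reg ℓ (t : G) := by
        unfold Reg at ht ⊢
        rwa [Subgroup.orderOf_coe]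
      have hcomm : Commute (B.i x) (t : G) :=
        (Subgroup.mem_centralizer_singleton_iff.1 t.2).symm
      have e2 : (B.i x * (t : G)) ^ N ^ k = B.i x ^ j * t := by
        rw [hcomm.mul_pow, hk (B.i x) ⟨1, by rw [pow_one]; exact hi x⟩,
          SO.H15.reg_pow_fix ℓ N hN.reg k _ ht2]
      show χ (B.i x ^ j * (t : G)) = χ ((B.i x * (t : G)) ^ N ^ k)
      rw [e2]
    · letI := Fintype.ofFinite G
      letI : Fintype (Cu (B.i x)) := Fintype.ofFinite _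
      rw [H25.eh_sing wbo ℓ M hM (fun t : Cu (B.i x) => B.b (Subgroup.zpowers x) t)
        hlc.blk.blk.1 t ht, zero_mul, zero_mul]
  have hce : Cz B a (D.et a) := hD.e1 a ha
  have het : ∀ χ ∈ Irr G, cv (etl B D a (κ ^ j) ⊥) χ =
      cv (etl B D a κ ⊥) (fun g => χ (g ^ N ^ k)) := by
    intro χ hχ
    have hχ' : (fun g => χ (g ^ N ^ k)) ∈ Irr G := SO.H15.pm_mem (Irr G) hrI k χ hχ
    unfold cv
    rw [etl_sum B D a ha (κ ^ j) χ (irr_conj hχ), etl_sum B D a ha κ _ (irr_conj hχ')]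
    have e1 : (fun g => χ (g ^ N ^ k)) 1 = χ 1 := by
      show χ (1 ^ N ^ k) = χ 1
      rw [one_pow]
    rw [e1]
    congr 3
    refine finsum_congr fun s => ?_
    by_cases hs : s ∈ B.C a ∧ Reg ℓ s
    · congr 1
      have hcomm : Commute (B.i κ) s := by
        have h1 := Subgroup.mem_centralizer_iff.1 hs.1 (B.i κ)
          (SetLike.mem_coe.2 (Subgroup.mem_map_of_mem B.i hκ))
        exact h1
      have e2 : (B.i κ * s) ^ N ^ k = B.i κ ^ j * s := by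
        rw [hcomm.mul_pow, hk (B.i κ) ⟨1, by rw [pow_one]; exact hi κ⟩,
          SO.H15.reg_pow_fix ℓ N hN.reg k _ hs.2]
      show χ (B.i (κ ^ j) * s) = χ ((B.i κ * s) ^ N ^ k)
      rw [e2, map_pow]
    · have h0 : D.et a s = 0 := by
        by_contra h
        refine hs ⟨?_, ?_⟩
        · by_contra h1
          exact h (hce.sup s h1)
        · by_contra h1
          exact h (hD.e2 a ha s h1)
      rw [h0, zero_mul, zero_mul]
  refine ⟨?_, fun d => ?_⟩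
  · have h1 := SO.H15.sum_pm hN.cop (IrrE M B.e) hS hrE (fun χ => cv (etl B D a κ ⊥) χ) k
    unfold LL
    rw [← h1]
    exact finsum_mem_congr rfl fun χ hχ => het χ hχ.1
  · have h1 := SO.H15.sum_pm hN.cop (IrrE M B.e) hS hrE
      (fun χ => cv (etl B D a κ ⊥) χ * cv (fc B ⊥ d) χ) k
    unfold NN
    rw [← h1]
    refine finsum_mem_congr rfl fun χ hχ => ?_
    rw [het χ hχ.1, hcv d χ hχ.1]

end Pool.Agent.PP.SE.H44
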