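import Pool.Agent.ASE.Stmts3

/-!
# Squad ASE, row FMB (helper44): the elements `fm`
-/

open scoped BigOperators

noncomputable section

namespace Pool.Agent.PP.SE.H44

open Pool.Agent.Helper51_AWC Pool.Agent.Helper79_WRA Pool.Agent.PP Pool.Agent.PP.KF
open Pool.Agent.PP.K9 Pool.Agent.PP.K9.H97 Pool.Agent.PP.H75 Pool.Agent.PP.T3 Pool.Agent.PP.SO
open Pool.Agent.PP.SD

attribute [local instance] Ideal.Quotient.field

theorem one_add_ne {ℓ : ℕ} [hp : Fact ℓ.Prime] {q : ℚ} (hq : q ∈ SOR.Rl ℓ) :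
    (1 : ℚ) + ℓ * q ≠ 0 := by
  intro h
  have hl : (ℓ : ℚ) ≠ 0 := Nat.cast_ne_zero.2 hp.out.ne_zero
  have h1 : q = -(ℓ : ℚ)⁻¹ := by
    field_simp
    linarith
  have h2 : ¬ ℓ ∣ q.den := hq
  rw [h1, Rat.neg_den, Rat.inv_natCast_den_of_pos hp.out.pos] at h2
  exact h2 dvd_rfl

section basic

variable {V₀ : Type} [CommGroup V₀]

theorem ux_ne {ℓ : ℕ} [Fact ℓ.Prime] {U : Subgroup V₀ → ℚ} {W : Subgroup V₀}
    (h : ∃ q ∈ SOR.Rl ℓ, U W = 1 + ℓ * q) (c : V₀) : ux U W c ≠ 0 := by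
  unfold ux
  split_ifs
  · exact one_ne_zero
  · obtain ⟨q, hq, h1⟩ := h
    rw [h1]
    exact one_add_ne hq

theorem ux_mem {U : Subgroup V₀ → ℚ} {W : Subgroup V₀} {c : V₀} (h : c ∈ W) : ux U W c = 1 := by
  unfold ux
  rw [if_pos h]

theorem ux_congr {U : Subgroup V₀ → ℚ} {W : Subgroup V₀} {c c' : V₀} (h : c ∈ W ↔ c' ∈ W) :
    ux U W c = ux U W c' := by
  unfold ux
  by_cases hc : c ∈ W
  · rw [if_pos hc, if_pos (h.1 hc)]
  · rw [if_neg hc, if_neg fun h' => hc (h.2 h')]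

theorem st_mem {E₀ : Subgroup (MulAut V₀)} {W : Subgroup V₀} {τ : MulAut V₀} (hτ : τ ∈ St E₀ W)
    (c : V₀) : τ c ∈ W ↔ c ∈ W := by
  have h1 : ∀ w ∈ W, τ w = w := hτ.2
  refine ⟨fun h => ?_, fun h => by rw [h1 c h]; exact h⟩
  have h2 : τ (τ c) = τ c := h1 _ h
  have h3 : τ c = c := τ.injective h2
  rw [← h3]
  exact h

theorem mp_mem (σ : MulAut V₀) (W : Subgroup V₀) (c : V₀) : σ c ∈ mp σ W ↔ c ∈ W := by
  unfold mp
  constructor
  · rintro ⟨w, hw, h⟩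
    have : w = c := σ.injective h
    rw [← this]
    exact hw
  · intro h
    exact ⟨c, h, rfl⟩

end basic

section blk

variable {V₀ G : Type} [CommGroup V₀] [Group G] {M : Ideal (integralClosure ℤ ℂ)} [M.IsMaximal]

theorem fm_mem {ℓ : ℕ} {E₀ : Subgroup (MulAut V₀)} {B : Bk (FF M) V₀ G} {D : Rd V₀ G}
    {W : Subgroup V₀} {c : V₀} (h : c ∈ W) :
    fm ℓ E₀ B D W c = fun g => (nS E₀ W : ℂ) * fc B W c g := by
  funext g
  unfold fm
  rw [if_pos h, if_pos h, sub_zero]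

theorem fm_not {ℓ : ℕ} {E₀ : Subgroup (MulAut V₀)} {B : Bk (FF M) V₀ G} {D : Rd V₀ G}
    {W : Subgroup V₀} {c : V₀} (h : c ∉ W) :
    fm ℓ E₀ B D W c = fun g => fc B W c g - tk B (pr ℓ E₀ W c) (D.et W) g := by
  funext g
  unfold fm
  rw [if_neg h, if_neg h, one_mul]

theorem cv_zero (χ : G → ℂ) : cv (fun _ : G => (0 : ℂ)) χ = 0 := by
  unfold cv
  have h : ∀ g : G, (0 : ℂ) * χ g = 0 := fun g => zero_mul _
  rw [finsum_congr h, finsum_zero, zero_div]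

/-- part 5 of CZB -/
def P5 (B : Bk (FF M) V₀ G) (W : Subgroup V₀) : Prop :=
  ∀ a b, Cz B W a → Cz B W b → ∀ z z' : ℂ, Cz B W (fun g => z * a g + z' * b g) ∧
    ∀ χ, cv (fun g => z * a g + z' * b g) χ = z * cv a χ + z' * cv b χ

theorem cz_zero {B : Bk (FF M) V₀ G} {W : Subgroup V₀} (h5 : P5 B W) {a : G → ℂ} (ha : Cz B W a) :
    Cz B W (fun _ => (0 : ℂ)) := by
  have h := (h5 a a ha ha 0 0).1
  have h1 : (fun g => (0 : ℂ) * a g + 0 * a g) = fun _ => 0 := by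
    funext g
    rw [zero_mul, zero_add]
  rwa [h1] at h

theorem cz_smul {B : Bk (FF M) V₀ G} {W : Subgroup V₀} (h5 : P5 B W) {a : G → ℂ} (ha : Cz B W a)
    (z : ℂ) : Cz B W (fun g => z * a g) ∧ ∀ χ, cv (fun g => z * a g) χ = z * cv a χ := by
  obtain ⟨h, h'⟩ := h5 a a ha ha z 0
  have h1 : (fun g => z * a g + 0 * a g) = fun g => z * a g := by
    funext g
    rw [zero_mul, add_zero]
  rw [h1] at h h'
  exact ⟨h, fun χ => by rw [h' χ, zero_mul, add_zero]⟩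

theorem cz_sum {B : Bk (FF M) V₀ G} {W : Subgroup V₀} (h5 : P5 B W)
    (h0 : Cz B W (fun _ => (0 : ℂ))) {ι : Type} (s : Finset ι) (z : ι → ℂ) (a : ι → G → ℂ)
    (ha : ∀ i, Cz B W (a i)) :
    Cz B W (fun g => ∑ i ∈ s, z i * a i g) ∧
      ∀ χ, cv (fun g => ∑ i ∈ s, z i * a i g) χ = ∑ i ∈ s, z i * cv (a i) χ := by
  classical
  induction s using Finset.induction_on with
  | empty =>
    simp only [Finset.sum_empty]
    exact ⟨h0, cv_zero⟩
  | insert i s hi ih =>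
    obtain ⟨h, h'⟩ := h5 (a i) (fun g => ∑ i ∈ s, z i * a i g) (ha i) ih.1 (z i) 1
    have h1 : (fun g => z i * a i g + 1 * ∑ i ∈ s, z i * a i g) =
        fun g => ∑ i ∈ insert i s, z i * a i g := by
      funext g
      rw [Finset.sum_insert hi, one_mul]
    rw [h1] at h h'
    refine ⟨h, fun χ => ?_⟩
    rw [h' χ, ih.2 χ, one_mul, Finset.sum_insert hi]

end blk

theorem fmb (czb : CzbStmt) (acb : AcbStmt) (prb : PrbStmt) : FmbStmt := by
  intro ℓ _ M _ hM hℓ V₀ G _ _ _ _ E₀ hF B hB D hD W hW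
  obtain ⟨z1, -, z3, z4, z5, z6, z7, -⟩ := czb ℓ M hM hℓ V₀ G E₀ hF B hB W
  obtain ⟨a0, a1⟩ := acb ℓ M hM hℓ V₀ G E₀ hF B hB
  obtain ⟨-, -, -, p4, p5, -, p7, p8, -, -⟩ := prb ℓ V₀ E₀ hF W
  obtain ⟨p7, -⟩ := p7 hW
  obtain ⟨-, p8, -⟩ := p8
  have h5 : P5 B W := z5
  have he1 : Cz B W (D.et W) := hD.e1 W hW
  have h0 : Cz B W (fun _ => (0 : ℂ)) := cz_zero h5 he1
  haveI : Finite (MulAut V₀) := inferInstance
  haveI : Fintype (St E₀ W) := Fintype.ofFinite _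
  -- `tk (κ pr c) et`
  have htk : ∀ κ ∈ W, ∀ c, Cz B W (tk B (κ * pr ℓ E₀ W c) (D.et W)) ∧ ∀ χ ∈ Ch B W,
      cv (tk B (κ * pr ℓ E₀ W c) (D.et W)) χ =
        nu B χ κ * (nu B χ (pr ℓ E₀ W c) * cv (D.et W) χ) := by
    intro κ hκ c
    rcases p7 with h | h
    · have h1 : D.et W = 0 := (hD.f1 W hW h).1
      have h2 : tk B (κ * pr ℓ E₀ W c) (D.et W) = fun _ => (0 : ℂ) := by
        rw [h1]
        rfl
      have h3 : ∀ χ, cv (D.et W) χ = 0 := by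
        intro χ
        rw [h1]
        exact cv_zero χ
      rw [h2]
      refine ⟨h0, fun χ hχ => ?_⟩
      rw [cv_zero, h3, mul_zero, mul_zero]
    · obtain ⟨h1, h2⟩ := z3 (D.et W) he1 _ (W.mul_mem hκ (p5 h c))
      refine ⟨h1, fun χ hχ => ?_⟩
      rw [h2 χ hχ, ((z7 χ hχ).2.2.1 κ hκ).2.2 _ (p5 h c), mul_assoc]
  have hfm : ∀ c, Cz B W (fm ℓ E₀ B D W c) := by
    intro c
    by_cases hc : c ∈ W
    · rw [fm_mem hc]
      exact (cz_smul h5 (z1 c) _).1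
    · rw [fm_not hc]
      have h1 := (htk 1 W.one_mem c).1
      rw [one_mul] at h1
      have h2 := (h5 _ _ (z1 c) h1 1 (-1)).1
      have h3 : (fun g => (1 : ℂ) * fc B W c g + (-1) * tk B (pr ℓ E₀ W c) (D.et W) g) =
          fun g => fc B W c g - tk B (pr ℓ E₀ W c) (D.et W) g := by
        funext g
        ring
      rwa [h3] at h2
  have hux : ∀ c, ux D.U W c ≠ 0 := ux_ne (hD.u1 W hW)
  have huτ : ∀ τ ∈ St E₀ W, ∀ c, ux D.U W (τ c) = ux D.U W c :=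
    fun τ hτ c => ux_congr (st_mem hτ c)
  -- `d3` with a finite sum
  have hd3 : ∀ χ ∈ Ch B W, ∀ c x, cv (fm ℓ E₀ B D W c) χ * D.D W χ x =
      (ux D.U W c : ℚ) * ∑ τ : St E₀ W, D.D W χ (x * (τ : MulAut V₀) c) := by
    intro χ hχ c x
    rw [hD.d3 W hW χ hχ c x, finsum_eq_sum_of_fintype]
  have hprod : ∀ c c' x, mulF (fm ℓ E₀ B D W c) (fm ℓ E₀ B D W c') x = ∑ᶠ τ : St E₀ W,
      ((ux D.U W c * ux D.U W ((τ : MulAut V₀) c') / ux D.U W (c * (τ : MulAut V₀) c') : ℚ) : ℂ) *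
        fm ℓ E₀ B D W (c * (τ : MulAut V₀) c') x := by
    intro c c' x
    obtain ⟨h1, h2⟩ := z4 _ _ (hfm c) (hfm c')
    obtain ⟨h3, h4⟩ := cz_sum h5 h0 (Finset.univ : Finset (St E₀ W))
      (fun τ => ((ux D.U W c * ux D.U W ((τ : MulAut V₀) c') /
        ux D.U W (c * (τ : MulAut V₀) c') : ℚ) : ℂ))
      (fun τ => fm ℓ E₀ B D W (c * (τ : MulAut V₀) c')) (fun τ => hfm _)
    have h6 := z6 _ _ h1 h3 (fun χ hχ => by
      rw [h2 χ hχ, h4 χ]
      have hd := (hD.d2 W hW χ hχ).1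
      apply mul_right_cancel₀ hd
      have e1 : cv (fm ℓ E₀ B D W c) χ * cv (fm ℓ E₀ B D W c') χ * D.D W χ 1 =
          (ux D.U W c : ℂ) * (ux D.U W c' : ℂ) * ∑ τ : St E₀ W, ∑ τ' : St E₀ W,
            D.D W χ (1 * (τ : MulAut V₀) c' * (τ' : MulAut V₀) c) := by
        rw [mul_assoc, hd3 χ hχ c' 1, mul_left_comm, Finset.mul_sum, Finset.mul_sum,
          Finset.mul_sum]
        refine Finset.sum_congr rfl fun τ _ => ?_
        rw [hd3 χ hχ c]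
        ring
      have e2 : (∑ τ : St E₀ W, ((ux D.U W c * ux D.U W ((τ : MulAut V₀) c') /
          ux D.U W (c * (τ : MulAut V₀) c') : ℚ) : ℂ) *
            cv (fm ℓ E₀ B D W (c * (τ : MulAut V₀) c')) χ) * D.D W χ 1 =
          (ux D.U W c : ℂ) * (ux D.U W c' : ℂ) * ∑ τ : St E₀ W, ∑ τ' : St E₀ W,
            D.D W χ (1 * (τ : MulAut V₀) c' * (τ' : MulAut V₀) c) := by
        rw [Finset.sum_mul]
        have e3 : ∀ τ : St E₀ W, ((ux D.U W c * ux D.U W ((τ : MulAut V₀) c') /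
            ux D.U W (c * (τ : MulAut V₀) c') : ℚ) : ℂ) *
            cv (fm ℓ E₀ B D W (c * (τ : MulAut V₀) c')) χ * D.D W χ 1 =
            (ux D.U W c : ℂ) * (ux D.U W c' : ℂ) * ∑ τ' : St E₀ W,
              D.D W χ (1 * ((τ' * τ : St E₀ W) : MulAut V₀) c' * (τ' : MulAut V₀) c) := by
          intro τ
          rw [mul_assoc, hd3 χ hχ, huτ τ τ.2 c']
          have hne : ((ux D.U W (c * (τ : MulAut V₀) c') : ℚ) : ℂ) ≠ 0 :=
            Rat.cast_ne_zero.2 (hux _)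
          have e4 : ∀ τ' : St E₀ W, D.D W χ (1 * (τ' : MulAut V₀) (c * (τ : MulAut V₀) c')) =
              D.D W χ (1 * ((τ' * τ : St E₀ W) : MulAut V₀) c' * (τ' : MulAut V₀) c) := by
            intro τ'
            have e5 : (τ' : MulAut V₀) (c * (τ : MulAut V₀) c') =
                ((τ' * τ : St E₀ W) : MulAut V₀) c' * (τ' : MulAut V₀) c := by
              rw [map_mul, mul_comm]
              rfl
            rw [e5, mul_assoc]
          rw [Finset.sum_congr rfl fun τ' _ => e4 τ']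
          push_cast
          field_simp
        rw [Finset.sum_congr rfl fun τ _ => e3 τ, ← Finset.mul_sum, Finset.sum_comm]
        congr 1
        rw [Finset.sum_comm (γ := St E₀ W) (f := fun τ τ' : St E₀ W =>
          D.D W χ (1 * (τ : MulAut V₀) c' * (τ' : MulAut V₀) c))]
        refine Finset.sum_congr rfl fun τ' _ => ?_
        exact Fintype.sum_equiv (Equiv.mulLeft τ') _
          (fun τ : St E₀ W => D.D W χ (1 * (τ : MulAut V₀) c' * (τ' : MulAut V₀) c))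
          (fun τ => rfl)
      rw [e1, e2])
    have h7 := congrFun h6 x
    rw [finsum_eq_sum_of_fintype]
    exact h7
  refine ⟨hfm, hprod, ?_, ?_, ?_, ?_, ?_, hux, huτ, ?_⟩
  · intro κ hκ
    obtain ⟨h1, h2⟩ := z3 _ he1 κ hκ
    refine ⟨h1, fun c x => ?_⟩
    obtain ⟨h3, h4⟩ := z4 _ _ h1 (hfm c)
    obtain ⟨h6, h7⟩ := htk κ hκ c
    obtain ⟨h8, h9⟩ := cz_smul h5 h6 ((nS E₀ W : ℂ) * (ux D.U W c : ℚ))
    have h10 := z6 _ _ h3 h8 (fun χ hχ => by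
      rw [h4 χ hχ, h9 χ, h7 χ hχ, h2 χ hχ]
      by_cases hc : cv (D.et W) χ = 0
      · rw [hc]
        ring
      · rw [hD.e3 W hW χ hχ hc c]
        ring)
    exact congrFun h10 x
  · intro σ hσ
    obtain ⟨p41, p42⟩ := p4 σ hσ
    obtain ⟨-, -, -, -, b5, -, -, b8⟩ := a1 W σ hσ
    obtain ⟨t1, t2⟩ := a0 σ hσ
    have het : ac B σ (D.et W) = D.et (mp σ W) := by
      funext x
      have h := (hD.e8 W hW σ hσ (tt B σ) t1 t2).1 ((tt B σ)⁻¹ * x * tt B σ)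
      have h' : tt B σ * ((tt B σ)⁻¹ * x * tt B σ) * (tt B σ)⁻¹ = x := by group
      rw [h'] at h
      exact h.symm
    have hk : ∀ κ, ac B σ (tk B κ (D.et W)) = tk B (σ κ) (D.et (mp σ W)) := by
      intro κ
      rw [b8 κ _ he1, het]
    refine ⟨fun c => ?_, fun κ _ => hk κ⟩
    by_cases hc : c ∈ W
    · rw [fm_mem hc, fm_mem ((mp_mem σ W c).2 hc), ← b5 c, p41]
      rfl
    · rw [fm_not hc, fm_not (fun h => hc ((mp_mem σ W c).1 h)), ← b5 c, p42, ← hk]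
      rfl
  · intro χ hχ c
    obtain ⟨d1, d2, -⟩ := hD.d2 W hW χ hχ
    apply mul_right_cancel₀ d1
    have h1 : starRingEnd ℂ (D.D W χ 1) = D.D W χ 1 := by
      rw [d2, inv_one]
    have h2 : starRingEnd ℂ (cv (fm ℓ E₀ B D W c) χ) * D.D W χ 1 =
        starRingEnd ℂ (cv (fm ℓ E₀ B D W c) χ * D.D W χ 1) := by
      rw [map_mul, h1]
    have h3 : ux D.U W c⁻¹ = ux D.U W c := ux_congr W.inv_mem_iff
    rw [h2, hd3 χ hχ, hd3 χ hχ, map_mul, map_sum, h3, map_ratCast]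
    congr 1
    refine Finset.sum_congr rfl fun τ _ => ?_
    rw [d2, map_inv, one_mul, one_mul]
  · intro χ hχ
    obtain ⟨d1, -, -⟩ := hD.d2 W hW χ hχ
    apply mul_right_cancel₀ d1
    rw [hd3 χ hχ, ux_mem W.one_mem]
    have h1 : ∀ τ : St E₀ W, D.D W χ (1 * (τ : MulAut V₀) 1) = D.D W χ 1 := by
      intro τ
      rw [map_one, one_mul]
    rw [Finset.sum_congr rfl fun τ _ => h1 τ, Finset.sum_const, Finset.card_univ, nsmul_eq_mul,
      Rat.cast_one, one_mul, ← Nat.card_eq_fintype_card]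
    rfl
  · intro κ hκ κ' hκ' x
    obtain ⟨h1, h2⟩ := z3 _ he1 κ hκ
    obtain ⟨h3, h4⟩ := z3 _ he1 κ' hκ'
    obtain ⟨h6, h7⟩ := z4 _ _ h1 h3
    obtain ⟨h8, h9⟩ := z4 _ _ he1 he1
    obtain ⟨h10, h11⟩ := z3 _ h8 (κ * κ') (W.mul_mem hκ hκ')
    have h12 := z6 _ _ h6 h10 (fun χ hχ => by
      rw [h7 χ hχ, h2 χ hχ, h4 χ hχ, h11 χ hχ, h9 χ hχ,
        ((z7 χ hχ).2.2.1 κ hκ).2.2 κ' hκ']
      ring)
    exact congrFun h12 x
  · intro σ hσ c
    unfold ux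
    by_cases hc : c ∈ W
    · rw [if_pos hc, if_pos ((mp_mem σ W c).2 hc)]
    · rw [if_neg hc, if_neg (fun h => hc ((mp_mem σ W c).1 h)), hD.ue W hW σ hσ]

end Pool.Agent.PP.SE.H44
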