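import Pool.Agent.ASE.Stmts7

/-!
# Squad ASE, row MQC (helper44): `MNE` is the rational number `MQ`
-/

open scoped BigOperators

noncomputable section

namespace Pool.Agent.PP.SE.H44

open Pool.Agent.Helper51_AWC Pool.Agent.Helper79_WRA Pool.Agent.PP Pool.Agent.PP.KF
open Pool.Agent.PP.K9 Pool.Agent.PP.K9.H97 Pool.Agent.PP.H75 Pool.Agent.PP.T3 Pool.Agent.PP.SO
open Pool.Agent.PP.SD

attribute [local instance] Ideal.Quotient.field

theorem cast_fsum {α : Type} (s : Set α) (hs : s.Finite) (f : α → ℚ) :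
    ((∑ᶠ a ∈ s, f a : ℚ) : ℂ) = ∑ᶠ a ∈ s, ((f a : ℚ) : ℂ) :=
  AddMonoidHom.map_finsum_mem f (Rat.castHom ℂ).toAddMonoidHom hs

theorem mqc (hPR : PrbStmt) : MqcStmt := by
  intro ℓ _ M _ V₀ G _ _ _ _ E₀ hF B D d₁ n₁ z₁ y₁ h x₁ x₂ c d hc hd
  have hpr : ∀ a ∈ RL ℓ E₀, ∀ x, pr ℓ E₀ a x ∈ a := fun a ha x =>
    (hPR ℓ V₀ E₀ hF a).2.2.2.2.1 ha x
  unfold MNE MQ
  rw [Rat.cast_sub, Rat.cast_sub, Rat.cast_sub, cast_fsum _ (Set.toFinite _),
    cast_fsum _ (Set.toFinite _), cast_fsum _ (Set.toFinite _)]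
  refine congrArg₂ _ (congrArg₂ _ (congrArg₂ _ ?_ ?_) ?_) ?_
  · rw [h.n c d hc hd]
    push_cast
    rfl
  · refine finsum_mem_congr rfl fun a ha => ?_
    rw [(h.y a ha.1 _ (hpr a ha.1 c) d hd).1]
    push_cast
    rfl
  · refine finsum_mem_congr rfl fun a ha => ?_
    rw [(h.y a ha.1 _ (hpr a ha.1 d) c hc).2]
    push_cast
    rfl
  · refine finsum_mem_congr rfl fun σ hσ => ?_
    rw [Rat.cast_sub, cast_fsum _ (Set.toFinite _)]
    refine congrArg₂ _ ?_ ?_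
    · rw [h.d _ hσ.2]
      push_cast
      rfl
    · refine finsum_mem_congr rfl fun a ha => ?_
      rw [h.z a ha.1 _ (hpr a ha.1 _)]
      push_cast
      rfl

end Pool.Agent.PP.SE.H44
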