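import Pool.Agent.ASE.Stmts2b
import Pool.Agent.Helper79_ASO.WTHB

/-!
# Squad ASE, row RFD (helper44): the fields `d5`, `d6`
-/

open scoped BigOperators

noncomputable section

namespace Pool.Agent.PP.SE.H44

open Pool.Agent.Helper51_AWC Pool.Agent.Helper79_WRA Pool.Agent.PP Pool.Agent.PP.KF
open Pool.Agent.PP.K9 Pool.Agent.PP.K9.H97 Pool.Agent.PP.H75 Pool.Agent.PP.T3 Pool.Agent.PP.SO
open Pool.Agent.PP.SD

attribute [local instance] Ideal.Quotient.field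

theorem fsum_const {α : Type} {s : Set α} {n : ℕ} (hn : 0 < n) (hs : s.ncard = n) (f : α → ℂ)
    (c : ℂ) (hf : ∀ a ∈ s, f a = c) : ∑ᶠ a ∈ s, f a = n * c := by
  have hfin : s.Finite := Set.finite_of_ncard_ne_zero (by omega)
  rw [finsum_mem_eq_finite_toFinset_sum _ hfin,
    Finset.sum_congr rfl fun a ha => hf a (hfin.mem_toFinset.1 ha), Finset.sum_const,
    ← Set.ncard_eq_toFinset_card s hfin, hs, nsmul_eq_mul]

theorem rfd (hSN : SnuStmt) (hGC : GecStmt) (hGA : GeaStmt) : RfdStmt := by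
  classical
  intro ℓ hℓ M _ hℓM hℓ2 V₀ G _ _ _ _ E₀ hF B hSd W hW N e O hCy D hDw
  letI := Fintype.ofFinite G
  obtain ⟨hfin, hsum, -, hnu, hlast⟩ := hSN ℓ M hℓM hℓ2 V₀ G E₀ hF B hSd W hW N e O hCy
  obtain ⟨-, hpr, -⟩ := hGA ℓ V₀ E₀ hF W hW
  obtain ⟨-, -, -, -, -, -, -, -, -, horb, -⟩ := hGC ℓ V₀ E₀ hF W hW
  have hnpos : 0 < nS E₀ W := by
    have : 1 < nS E₀ W := hW.2
    omega
  have hn0 : (nS E₀ W : ℂ) ≠ 0 := Nat.cast_ne_zero.2 hnpos.ne'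
  have hl0 : (ℓ : ℂ) ≠ 0 := Nat.cast_ne_zero.2 hℓ.out.ne_zero
  have hν : ∀ χ ∈ Ch B W, ∃ ν ∈ lk (kW E₀ W), χ ∈ Iv B W ν := by
    intro χ hχ
    by_contra hcon
    have h1 := hsum (fun ψ => if ψ = χ then 1 else 0)
    rw [finsum_mem_eq_finite_toFinset_sum _ hfin, Finset.sum_ite_eq',
      if_pos (hfin.mem_toFinset.2 hχ)] at h1
    rw [finsum_mem_of_eqOn_zero] at h1
    · exact one_ne_zero h1
    · intro ν hν
      refine finsum_mem_of_eqOn_zero ?_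
      intro ψ hψ
      change (if ψ = χ then (1 : ℂ) else 0) = 0
      rw [if_neg]
      rintro rfl
      exact hcon ⟨ν, hν, hψ⟩
  have hsg : ∀ χ ∈ Ch B W, (e χ : ℂ) * e χ = 1 := by
    intro χ hχ
    obtain ⟨ν, h1, h2⟩ := hν χ hχ
    rcases (hCy.lv ν h1).sg χ h2 with h | h <;> rw [h] <;> norm_num
  have hone : ∀ χ ∈ Ch B W, χ 1 ≠ 0 := fun χ hχ => SO.H79.one_sub _ hχ.2.1
  have hpr1 : pr ℓ E₀ W 1 = 1 := by
    unfold pr
    rw [finprod_eq_one_of_forall_eq_one (fun τ => map_one _), one_pow]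
  have hnu1 : ∀ χ ∈ Ch B W, nu B χ 1 = 1 := by
    intro χ hχ
    unfold nu
    rw [map_one, div_self (hone χ hχ)]
  have hDN : ∀ χ ∈ Ch B W, χ ∈ N → D.D W χ 1 = e χ := by
    intro χ hχ hN
    rw [hDw.dD χ hχ, hpr1, hnu1 χ hχ, if_pos hN, one_mul]
  have hDX : ∀ χ ∈ Ch B W, χ ∉ N → D.D W χ 1 = e χ * nS E₀ W := by
    intro χ hχ hN
    obtain ⟨ν, h1, h2⟩ := hν χ hχ
    obtain ⟨⟨s, hs, hs1, hO⟩, -⟩ := (hCy.lv ν h1).vX χ h2 hN
    rw [hDw.dD χ hχ, hpr1, hnu1 χ hχ, if_neg hN, one_mul, hO,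
      fsum_const hnpos (horb s hs hs1).1 _ 1, mul_one]
    rintro s' ⟨τ, -, rfl⟩
    change s (τ 1) = 1
    rw [map_one]
    exact hs.1.1
  have hrs : ∀ χ ψ : G → ℂ, rq ℓ B W χ ψ → rq ℓ B W ψ χ := fun χ ψ h g hg hr => (h g hg hr).symm
  have hcj : ∀ n : ℤ, starRingEnd ℂ (n : ℂ) = n := fun n => map_intCast _ n
  have hcn : ∀ n : ℕ, starRingEnd ℂ (n : ℂ) = n := fun n => map_natCast _ n
  refine ⟨?_, ?_⟩
  · intro χ hχ ψ hψ
    change rip ℓ B W χ ψ = _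
    by_cases h1 : χ ∈ N
    · by_cases h2 : ψ ∈ N
      · rw [hCy.rN χ hχ ψ hψ h1 h2, hDN χ hχ h1, hDN ψ hψ h2, hDw.dR χ hχ ψ hψ,
          if_pos (⟨h1, h2⟩ : χ ∈ N ∧ ψ ∈ N), hcj]
        field_simp
        ring
      · rw [(hCy.rM χ hχ ψ hψ h1 h2).1, hDN χ hχ h1, hDX ψ hψ h2, hDw.dR χ hχ ψ hψ,
          if_neg (fun h => h2 h.2), map_mul, hcj, hcn]
        field_simp
        ring
    · by_cases h2 : ψ ∈ N
      · rw [(hCy.rM ψ hψ χ hχ h2 h1).2, hDX χ hχ h1, hDN ψ hψ h2, hDw.dR χ hχ ψ hψ,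
          if_neg (fun h => h1 h.1), hcj]
        field_simp
        ring
      · rw [hCy.rX χ hχ ψ hψ h1 h2, hDX χ hχ h1, hDX ψ hψ h2, hDw.dR χ hχ ψ hψ,
          if_neg (fun h => h1 h.1), map_mul, hcj, hcn]
        field_simp
        ring
  · intro ψ hψ
    refine ⟨fun x => ?_, fun χ hχ => ⟨?_, ?_⟩⟩
    · by_cases h2 : ψ ∈ N
      · have e1 : ∑ᶠ χ ∈ Ch B W, D.D W χ x * D.R W χ ψ =
            ∑ᶠ χ ∈ {χ | χ ∈ Ch B W ∧ χ ∈ N}, D.D W χ x * D.R W χ ψ := by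
          refine finsum_mem_inter_support_eq' _ _ _ fun χ hχ => ?_
          refine ⟨fun h => ⟨h, ?_⟩, fun h => h.1⟩
          by_contra hN
          apply hχ
          change D.D W χ x * D.R W χ ψ = 0
          rw [hDw.dR χ h ψ hψ, if_neg (fun h => hN h.1), mul_zero]
        have e2 : ∑ᶠ χ ∈ {χ | χ ∈ Ch B W ∧ χ ∈ N}, D.D W χ x * D.R W χ ψ =
            ∑ᶠ χ ∈ {χ | χ ∈ Ch B W ∧ χ ∈ N}, nu B χ (pr ℓ E₀ W x) *
              ((e ψ : ℂ) / ℓ * ((if rq ℓ B W χ ψ then (1 : ℂ) else 0) - (nS E₀ W : ℂ)⁻¹)) := by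
          refine finsum_mem_congr rfl fun χ hχ => ?_
          rw [hDw.dR χ hχ.1 ψ hψ, if_pos (⟨hχ.2, h2⟩ : χ ∈ N ∧ ψ ∈ N), hDw.dD χ hχ.1, if_pos hχ.2]
          have := hsg χ hχ.1
          linear_combination (nu B χ (pr ℓ E₀ W x) * ((e ψ : ℂ) / ℓ *
            ((if rq ℓ B W χ ψ then (1 : ℂ) else 0) - (nS E₀ W : ℂ)⁻¹))) * this
        obtain ⟨-, h3⟩ := hnu (fun χ => (e ψ : ℂ) / ℓ *
            ((if rq ℓ B W χ ψ then (1 : ℂ) else 0) - (nS E₀ W : ℂ)⁻¹)) (by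
          intro χ hχ χ' hχ' _ _ hq
          have : rq ℓ B W χ ψ ↔ rq ℓ B W χ' ψ :=
            ⟨fun h g hg hr => (hq g hg hr).symm.trans (h g hg hr),
              fun h g hg hr => (hq g hg hr).trans (h g hg hr)⟩
          simp only [this])
        have hone' : (fun _ => 1) ∈ lk (kW E₀ W) :=
          ⟨⟨rfl, fun _ _ => (mul_one _).symm⟩, fun _ _ => rfl⟩
        obtain ⟨h4, h5, h6⟩ := hlast _ hone'
        have h7 : ∑ᶠ χ ∈ {χ | χ ∈ Iv B W (fun _ => 1) ∧ χ ∈ N}, ((e ψ : ℂ) / ℓ *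
            ((if rq ℓ B W χ ψ then (1 : ℂ) else 0) - (nS E₀ W : ℂ)⁻¹)) = 0 := by
          rw [← mul_finsum_mem, finsum_mem_sub_distrib _ _ h5, h6 ψ hψ h2,
            fsum_const hnpos h4 _ ((nS E₀ W : ℂ)⁻¹) (fun _ _ => rfl), mul_inv_cancel₀ hn0,
            sub_self, mul_zero]
        rw [e1, e2, h3 _ (hpr x).1, h7, mul_zero, ite_self]
      · refine finsum_mem_of_eqOn_zero fun χ hχ => ?_
        change D.D W χ x * D.R W χ ψ = 0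
        rw [hDw.dR χ hχ ψ hψ, if_neg (fun h => h2 h.2), mul_zero]
    · rw [hDw.dR χ hχ ψ hψ, hDw.dR ψ hψ χ hχ]
      have h1 : (χ ∈ N ∧ ψ ∈ N) ↔ (ψ ∈ N ∧ χ ∈ N) := and_comm
      have h2 : rq ℓ B W χ ψ ↔ rq ℓ B W ψ χ := ⟨hrs χ ψ, hrs ψ χ⟩
      simp only [h1, h2]
      split_ifs <;> ring
    · rw [hDw.dR χ hχ ψ hψ]
      split_ifs <;> simp
end Pool.Agent.PP.SE.H44
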