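import Pool.Agent.ASE.Stmts2b
import Pool.Agent.Helper30_ASE.HZA

/-!
# Squad ASE, row RFI (helper44): the field `e5`
-/

open scoped BigOperators

noncomputable section

namespace Pool.Agent.PP.SE.H44

open Pool.Agent.Helper51_AWC Pool.Agent.Helper79_WRA Pool.Agent.PP Pool.Agent.PP.KF
open Pool.Agent.PP.K9 Pool.Agent.PP.K9.H97 Pool.Agent.PP.H75 Pool.Agent.PP.T3 Pool.Agent.PP.SO
open Pool.Agent.PP.SD

attribute [local instance] Ideal.Quotient.field

/-- centralisers in a subgroup -/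
theorem card_cu {G : Type} [Group G] (H : Subgroup G) (s : H) :
    Nat.card (Cu s) = Nat.card (H ⊓ Cu (s : G) : Subgroup G) := by
  refine Nat.card_congr ⟨fun x => ⟨((x : H) : G), (x : H).2, ?_⟩, fun x => ⟨⟨x.1, x.2.1⟩, ?_⟩,
    fun x => rfl, fun x => rfl⟩
  · have h := Subgroup.mem_centralizer_singleton_iff.1 x.2
    exact Subgroup.mem_centralizer_singleton_iff.2 (congrArg Subtype.val h)
  · have h := Subgroup.mem_centralizer_singleton_iff.1 x.2.2
    exact Subgroup.mem_centralizer_singleton_iff.2 (Subtype.ext h)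

/-- the sum over a subgroup -/
theorem fsum_sub {G : Type} [Group G] [Finite G] (H : Subgroup G) (f : G → ℂ)
    (hf : ∀ g, g ∉ H → f g = 0) : ∑ᶠ h : H, f h = ∑ᶠ g, f g := by
  have h1 := finsum_mem_eq_of_bijOn (s := (Set.univ : Set H)) (t := (H : Set G))
    (f := fun h : H => f h) (g := f) (fun h : H => (h : G))
    ⟨fun h _ => h.2, Subtype.val_injective.injOn, fun g hg => ⟨⟨g, hg⟩, trivial, rfl⟩⟩
    (fun _ _ => rfl)
  rw [finsum_mem_univ] at h1
  rw [h1, ← finsum_mem_univ (f := f)]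
  refine finsum_mem_inter_support_eq' _ _ _ fun g hg => ⟨fun _ => trivial, fun _ => ?_⟩
  by_contra h
  exact hg (hf g h)

theorem rfi (hVA : ValStmt) (hRG : RfgStmt) (hRH : RfhStmt) (hPR : SO.PrjStmt) : RfiStmt := by
  classical
  intro ℓ hℓ M _ hℓM hℓ2 V₀ G _ _ _ _ E₀ hF B hSd W hW N e O hCy D hDw s hs
  have hl0 : (ℓ : ℂ) ≠ 0 := Nat.cast_ne_zero.2 hℓ.out.ne_zero
  obtain ⟨-, -, hCz, -, -⟩ := hVA ℓ M hℓM hℓ2 V₀ G E₀ hF B hSd W hW N e O hCy D hDw
  have hreg := hRG ℓ M hℓM hℓ2 V₀ G E₀ hF B hSd W hW N e O hCy D hDw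
  obtain ⟨-, he4, -, hh1⟩ := hRH ℓ M hℓM hℓ2 V₀ G E₀ hF B hSd W hW N e O hCy D hDw
  have hc0 : (Nat.card (B.C W) : ℂ) ≠ 0 := Nat.cast_ne_zero.2 Nat.card_pos.ne'
  have key := hPR ℓ M hℓM (B.C W) (fun h => (ℓ : ℂ) * D.et W h) (by
      intro x y
      change (ℓ : ℂ) * D.et W ((y : G) * x * (y : G)⁻¹) = _
      rw [hCz.cls y y.2]) (by
      intro x hx
      have hx' : ¬ Reg ℓ (x : G) := by
        intro h
        apply hx
        unfold Reg at h ⊢
        rwa [Subgroup.orderOf_coe] at h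
      change (ℓ : ℂ) * D.et W x = 0
      rw [hreg _ hx', mul_zero]) (by
      intro χ hχ
      obtain ⟨ψ, hψ⟩ : ∃ ψ : G → ℂ, ψ = fun g => if h : g ∈ B.C W then χ (⟨g, h⟩ : B.C W)⁻¹ else 0 :=
        ⟨_, rfl⟩
      have hψ0 : ∀ g, g ∉ B.C W → ψ g = 0 := by
        intro g hg
        rw [hψ]
        exact dif_neg hg
      have hψ1 : ∀ t : B.C W, ψ t = χ t⁻¹ := by
        intro t
        rw [hψ]
        exact dif_pos t.2
      have hψI : (fun t : B.C W => ψ t) ∈ Irr (B.C W) := by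
        rw [funext hψ1]
        exact H30.hza_inv hχ
      have hone : ψ 1 ≠ 0 := by
        have := Fintype.ofFinite (B.C W)
        have h1 := irr_one_ne (G := B.C W) hψI
        exact h1
      have e1 : ∑ᶠ h : B.C W, (ℓ : ℂ) * D.et W h * χ h⁻¹ = ℓ * (cv (D.et W) ψ * ψ 1) := by
        have e2 : ∑ᶠ h : B.C W, (ℓ : ℂ) * D.et W h * χ h⁻¹ =
            ∑ᶠ h : B.C W, (fun g => (ℓ : ℂ) * (D.et W g * ψ g)) (h : G) := by
          refine finsum_congr fun h => ?_
          change _ = (ℓ : ℂ) * (D.et W h * ψ h)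
          rw [hψ1, mul_assoc]
        rw [e2, fsum_sub (B.C W) (fun g => (ℓ : ℂ) * (D.et W g * ψ g)) (by
          intro g hg
          change (ℓ : ℂ) * (D.et W g * ψ g) = 0
          rw [hψ0 g hg, mul_zero, mul_zero]), ← mul_finsum]
        unfold cv
        rw [div_mul_cancel₀ _ hone]
      rw [e1]
      by_cases hψC : ψ ∈ Ch B W
      · have e3 : (Nat.card (B.C W) : ℂ)⁻¹ * (ℓ * (cv (D.et W) ψ * ψ 1)) =
            cv (D.et W) ψ / ℓ * ((ℓ : ℂ) ^ 2 * ψ 1 / Nat.card (B.C W)) := by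
          field_simp
        rw [e3]
        exact (RM M).mul_mem (he4 ψ hψC) (hh1 ψ hψC).1
      · rw [hCz.blk ψ hψ0 hψI hψC, zero_mul, mul_zero, mul_zero]
        exact (RM M).zero_mem) ⟨s, hs⟩
  rw [card_cu] at key
  exact key

end Pool.Agent.PP.SE.H44
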